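import Pool.Agent.H242R3.ES.Stmts

set_option autoImplicit false

/-! Task F1 of the project H242-ES: exposed faces of a polytope and faces of the cone over it. -/

namespace Pool.Agent.H780R3.ES

open Pool.Agent.H242R3.ES

/-- the inclusion of the affine coordinates -/
def inc (D : ℕ) : (Fin D → ℝ) →ₗ[ℝ] LV D where
  toFun x := fun i => Option.elim i (0 : ℝ) x
  map_add' x y := by
    funext i
    cases i <;> simp
  map_smul' a x := by
    funext i
    cases i <;> simp

theorem hom_eq {D : ℕ} (x : Fin D → ℝ) : hom x = hom 0 + inc D x := by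
  funext i
  cases i <;> simp [hom, inc]

theorem hull_EP {D : ℕ} (V : Finset (Fin D → ℝ)) :
    convexHull ℝ (V : Set (Fin D → ℝ)) = convexHull ℝ (EP V) := by
  have hfin : (EP V).Finite := V.finite_toSet.subset extremePoints_convexHull_subset
  have hPc : IsCompact (convexHull ℝ (V : Set (Fin D → ℝ))) :=
    V.finite_toSet.isCompact_convexHull ℝ
  have h1 := closure_convexHull_extremePoints hPc (convex_convexHull ℝ _)
  have h2 : IsClosed (convexHull ℝ (EP V)) := hfin.isClosed_convexHull ℝ
  rw [h2.closure_eq] at h1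
  exact h1.symm

theorem t : TaskF1 := by
  intro D V S hS hSne
  obtain ⟨x0, hx0⟩ := hSne
  have hEP : EP V ⊆ convexHull ℝ (V : Set (Fin D → ℝ)) := extremePoints_subset
  have hSP : S ⊆ convexHull ℝ (V : Set (Fin D → ℝ)) := hS.trans hEP
  have hcS : convexHull ℝ S ⊆ convexHull ℝ (V : Set (Fin D → ℝ)) :=
    convexHull_min hSP (convex_convexHull ℝ _)
  constructor
  · intro h
    obtain ⟨l, hl⟩ := h ⟨x0, subset_convexHull ℝ S hx0⟩
    have hx0m : x0 ∈ convexHull ℝ S := subset_convexHull ℝ S hx0
    have hmax : ∀ y ∈ convexHull ℝ (V : Set (Fin D → ℝ)), l y ≤ l x0 := by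
      rw [hl] at hx0m
      exact hx0m.2
    refine ⟨(l x0) • LinearMap.proj none -
      (l : (Fin D → ℝ) →ₗ[ℝ] ℝ).comp (LinearMap.funLeft ℝ ℝ some), ?_, ?_⟩
    · intro i
      have h1 := hmax i (hEP i.2)
      have h2 : (LinearMap.funLeft ℝ ℝ some) (hom (i : Fin D → ℝ)) = (i : Fin D → ℝ) := by
        funext j; simp [LinearMap.funLeft, hom]
      simp only [LinearMap.sub_apply, LinearMap.smul_apply, LinearMap.proj_apply,
        LinearMap.comp_apply, h2]
      simp only [hom, Option.elim, smul_eq_mul, mul_one, ContinuousLinearMap.coe_coe]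
      linarith
    · intro i
      have h2 : (LinearMap.funLeft ℝ ℝ some) (hom (i : Fin D → ℝ)) = (i : Fin D → ℝ) := by
        funext j; simp [LinearMap.funLeft, hom]
      simp only [LinearMap.sub_apply, LinearMap.smul_apply, LinearMap.proj_apply,
        LinearMap.comp_apply, h2]
      simp only [hom, Option.elim, smul_eq_mul, mul_one, ContinuousLinearMap.coe_coe]
      constructor
      · intro hi
        have h3 : (i : Fin D → ℝ) ∈ convexHull ℝ S := subset_convexHull ℝ S hi
        rw [hl] at h3
        have h4 := h3.2 x0 (hSP hx0)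
        have h5 := hmax i (hEP i.2)
        linarith
      · intro hi
        have h3 : (i : Fin D → ℝ) ∈ convexHull ℝ S := by
          rw [hl]
          refine ⟨hEP i.2, fun y hy => ?_⟩
          have := hmax y hy
          linarith
        have h4 : (i : Fin D → ℝ) ∈ Set.extremePoints ℝ (convexHull ℝ S) :=
          inter_extremePoints_subset_extremePoints_of_subset hcS ⟨h3, i.2⟩
        have h5 : (i : Fin D → ℝ) ∈ S := extremePoints_convexHull_subset h4
        exact h5
  · rintro ⟨L, hL0, hLS⟩
    intro _
    have hhom : ∀ x : Fin D → ℝ, L (hom x) = L (hom 0) + L (inc D x) := by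
      intro x
      rw [hom_eq x, map_add]
    have hconv : Convex ℝ {y : Fin D → ℝ | 0 ≤ L (hom y)} := by
      intro x hx y hy a b ha hb hab
      simp only [Set.mem_ofPred_eq] at hx hy ⊢
      rw [hhom] at hx hy ⊢
      rw [map_add, map_smul, map_smul, map_add, map_smul, map_smul, smul_eq_mul, smul_eq_mul]
      have h1 : L (hom 0) = a * L (hom 0) + b * L (hom 0) := by rw [← add_mul, hab, one_mul]
      have h2 : 0 ≤ a * (L (hom 0) + L (inc D x)) := mul_nonneg ha hx
      have h3 : 0 ≤ b * (L (hom 0) + L (inc D y)) := mul_nonneg hb hy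
      nlinarith
    have hpos : ∀ y ∈ convexHull ℝ (V : Set (Fin D → ℝ)), 0 ≤ L (hom y) := by
      intro y hy
      rw [hull_EP] at hy
      exact convexHull_min (fun z hz => hL0 ⟨z, hz⟩) hconv hy
    have hx00 : L (hom x0) = 0 := (hLS ⟨x0, hS hx0⟩).mp hx0
    refine ⟨-(LinearMap.toContinuousLinearMap (L.comp (inc D))), ?_⟩
    have hval : ∀ x : Fin D → ℝ, (-(LinearMap.toContinuousLinearMap (L.comp (inc D)))) x =
        L (hom 0) - L (hom x) := by
      intro x
      rw [hhom x]
      simp
    ext x
    simp only [Set.mem_sep_iff, hval]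
    constructor
    · intro hx
      refine ⟨hcS hx, fun y hy => ?_⟩
      have h1 := hpos y hy
      have hle : L (hom x) ≤ 0 := by
        have hconv2 : Convex ℝ {y : Fin D → ℝ | L (hom y) ≤ 0} := by
          intro x hx y hy a b ha hb hab
          simp only [Set.mem_ofPred_eq] at hx hy ⊢
          rw [hhom] at hx hy ⊢
          rw [map_add, map_smul, map_smul, map_add, map_smul, map_smul, smul_eq_mul, smul_eq_mul]
          have h1 : L (hom 0) = a * L (hom 0) + b * L (hom 0) := by rw [← add_mul, hab, one_mul]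
          have h2 : a * (L (hom 0) + L (inc D x)) ≤ 0 := mul_nonpos_of_nonneg_of_nonpos ha hx
          have h3 : b * (L (hom 0) + L (inc D y)) ≤ 0 := mul_nonpos_of_nonneg_of_nonpos hb hy
          nlinarith
        have hsub : S ⊆ {y : Fin D → ℝ | L (hom y) ≤ 0} :=
          fun z hz => le_of_eq ((hLS ⟨z, hS hz⟩).mp hz)
        exact convexHull_min hsub hconv2 hx
      linarith
    · rintro ⟨hxP, hx⟩
      have hxle : L (hom x) = 0 := by
        have h1 := hx x0 (hSP hx0)
        have h2 := hpos x hxP
        linarith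
      have hfin : (EP V).Finite := V.finite_toSet.subset extremePoints_convexHull_subset
      rw [hull_EP, ← hfin.coe_toFinset, Finset.convexHull_eq] at hxP
      obtain ⟨w, hw0, hw1, hwx⟩ := hxP
      have hsum : x = ∑ y ∈ hfin.toFinset, w y • y := by
        rw [← hwx, Finset.centerMass_eq_of_sum_1 _ _ hw1]
        simp
      have hLx : L (hom x) = ∑ y ∈ hfin.toFinset, w y * L (hom y) := by
        rw [hhom, hsum, map_sum, map_sum]
        have : L (hom 0) = ∑ y ∈ hfin.toFinset, w y * L (hom 0) := by
          rw [← Finset.sum_mul, hw1, one_mul]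
        rw [this, ← Finset.sum_add_distrib]
        refine Finset.sum_congr rfl fun y _ => ?_
        rw [hhom y, map_smul, map_smul, smul_eq_mul, mul_add]
      rw [hxle] at hLx
      have hz := (Finset.sum_eq_zero_iff_of_nonneg (fun y hy =>
        mul_nonneg (hw0 y hy) (hL0 ⟨y, hfin.mem_toFinset.mp hy⟩))).mp hLx.symm
      rw [← hwx, ← Finset.centerMass_filter_ne_zero]
      refine Finset.centerMass_mem_convexHull _ (fun y hy => hw0 y (Finset.mem_filter.mp hy).1) ?_
        (fun y hy => ?_)
      · rw [Finset.sum_filter_ne_zero, hw1]; exact one_pos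
      · obtain ⟨hy1, hy2⟩ := Finset.mem_filter.mp hy
        have h1 := hz y hy1
        rcases mul_eq_zero.mp h1 with h2 | h2
        · exact absurd h2 hy2
        · exact (hLS ⟨y, hfin.mem_toFinset.mp hy1⟩).mpr h2

end Pool.Agent.H780R3.ES
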