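import Pool.Agent.H242R3.ES.StmtsN

set_option autoImplicit false

/-! Task N14 of the project H242-ES: the geometry of the facets from the theorem one dimension
lower. -/

namespace Pool.Agent.H780R3.ES.N14

open Pool.Agent.H242R3.ES

section Lorentz

variable {D : ℕ}

theorem B_comm (x y : LV D) : B x y = B y x := by
  unfold B
  congr 1
  · exact Finset.sum_congr rfl fun i _ => mul_comm _ _
  · exact mul_comm _ _

theorem B_add_left (x y z : LV D) : B (x + y) z = B x z + B y z := by
  unfold B
  simp only [Pi.add_apply, add_mul, Finset.sum_add_distrib]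
  ring

theorem B_smul_left (a : ℝ) (x z : LV D) : B (a • x) z = a * B x z := by
  unfold B
  simp only [Pi.smul_apply, smul_eq_mul, mul_sub, Finset.mul_sum, mul_assoc]

theorem B_add_right (x y z : LV D) : B x (y + z) = B x y + B x z := by
  rw [B_comm, B_add_left, B_comm y, B_comm z]

theorem B_smul_right (a : ℝ) (x z : LV D) : B x (a • z) = a * B x z := by
  rw [B_comm, B_smul_left, B_comm z]

theorem B_zero_left (x : LV D) : B 0 x = 0 := by
  unfold B
  simp

/-- every linear functional comes from the form -/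
theorem exists_rep (l : LV D →ₗ[ℝ] ℝ) : ∃ n : LV D, ∀ x, B x n = l x := by
  refine ⟨fun o => Option.elim o (-(l (fun j => if none = j then 1 else 0)))
    (fun i => l (fun j => if some i = j then 1 else 0)), fun x => ?_⟩
  rw [LinearMap.pi_apply_eq_sum_univ l x, Fintype.sum_option]
  unfold B
  simp only [Option.elim, smul_eq_mul]
  ring

/-- a nonzero vector orthogonal to a timelike vector is spacelike -/
theorem spacelike {x n : LV D} (hx : B x x < 0) (hxn : B x n = 0) (hn : n ≠ 0) : 0 < B n n := by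
  unfold B at hx hxn ⊢
  have hcs := Finset.sum_mul_sq_le_sq_mul_sq (Finset.univ : Finset (Fin D))
    (fun i => x (some i)) (fun i => n (some i))
  simp only [← pow_two] at hx ⊢
  set a := ∑ i : Fin D, x (some i) ^ 2 with ha
  set b := ∑ i : Fin D, n (some i) ^ 2 with hb
  have hb0 : 0 ≤ b := Finset.sum_nonneg fun i _ => sq_nonneg _
  have ha0 : 0 ≤ a := Finset.sum_nonneg fun i _ => sq_nonneg _
  have hs : ∑ i : Fin D, x (some i) * n (some i) = x none * n none := by linarith
  rw [hs] at hcs
  have hx0 : 0 < x none ^ 2 := by linarith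
  have hbpos : 0 < b := by
    rcases hb0.lt_or_eq with h | h
    · exact h
    · exfalso
      apply hn
      have hz := (Finset.sum_eq_zero_iff_of_nonneg (fun i _ => sq_nonneg (n (some i)))).mp h.symm
      have h0 : x none * n none = 0 := by
        rw [← h, mul_zero] at hcs
        have : (x none * n none) ^ 2 = 0 := le_antisymm hcs (sq_nonneg _)
        exact pow_eq_zero_iff (two_ne_zero) |>.mp this
      have hx1 : x none ≠ 0 := by
        intro h1; rw [h1] at hx0; simp at hx0
      funext o
      cases o with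
      | none => exact (mul_eq_zero.mp h0).resolve_left hx1
      | some i => exact pow_eq_zero_iff (two_ne_zero) |>.mp (hz i (Finset.mem_univ i))
  have h1 : a * b < x none ^ 2 * b := by nlinarith
  have h2 : (x none) ^ 2 * (n none) ^ 2 < x none ^ 2 * b := by
    have : (x none * n none) ^ 2 = (x none) ^ 2 * (n none) ^ 2 := by ring
    linarith
  have h3 : (n none) ^ 2 < b := lt_of_mul_lt_mul_left h2 hx0.le
  linarith

end Lorentz

/-- the facet as a polytope of dimension `D` -/
theorem facet (h1 : TaskG1) (hgen : GenV) (h7 : P7G) (hP : ProjV) (D : ℕ) (hD : 3 ≤ D)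
    (ι : Type) [Fintype ι] (V : ι → LV (D + 1)) (hV : GQ (D + 1) V) (T : Set ι) (hT : Face V T)
    (hTu : T ≠ Set.univ) (hrk : rk V T = D + 1) [Fintype T] :
    ∃ U : T → LV D, GQ D U ∧ (∀ i j, B (U i) (U j) = B (V i) (V j)) ∧
      ∀ R : Set T, Face U R ↔ Face V ((fun i : T => (i : ι)) '' R) := by
  classical
  have hT' := hT
  obtain ⟨l, hl0, hlT⟩ := hT
  obtain ⟨n0, hn0⟩ := exists_rep l
  obtain ⟨w, hw, hVw⟩ := hV.tw
  unfold rk at hrk
  have hfin : Module.finrank ℝ (LV (D + 1)) = D + 2 := by
    simp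
  -- the span of the facet
  have hker : Submodule.span ℝ (V '' T) = LinearMap.ker l := by
    have hle : Submodule.span ℝ (V '' T) ≤ LinearMap.ker l := by
      rw [Submodule.span_le]
      rintro _ ⟨i, hi, rfl⟩
      exact (hlT i).mp hi
    apply Submodule.eq_of_le_of_finrank_le hle
    rw [hrk]
    have hlne : LinearMap.ker l ≠ ⊤ := by
      intro h
      apply hTu
      ext i
      simp only [Set.mem_univ, iff_true]
      rw [hlT i]
      have : V i ∈ LinearMap.ker l := by rw [h]; exact Submodule.mem_top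
      exact this
    have := Submodule.finrank_lt hlne
    rw [hfin] at this
    omega
  have hn0ne : n0 ≠ 0 := by
    rintro rfl
    apply hTu
    ext i
    simp only [Set.mem_univ, iff_true]
    rw [hlT i, ← hn0, B_comm, B_zero_left]
  -- an edge and a third vertex
  have hTne : T.Nonempty := by
    rw [Set.nonempty_iff_ne_empty]
    intro hE
    rw [hE, Set.image_empty, Submodule.span_empty, finrank_bot] at hrk
    omega
  obtain ⟨v, hv⟩ := hTne
  have hex : ∃ i ∈ T, V i ∉ Submodule.span ℝ ({V v} : Set (LV (D + 1))) := by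
    by_contra hcon
    push Not at hcon
    have hle : Submodule.span ℝ (V '' T) ≤ Submodule.span ℝ ({V v} : Set (LV (D + 1))) := by
      rw [Submodule.span_le]
      rintro _ ⟨i, hi, rfl⟩
      exact hcon i hi
    have h2 := Submodule.finrank_mono hle
    have h3 := finrank_span_finset_le_card (R := ℝ) ({V v} : Finset (LV (D + 1)))
    rw [Finset.coe_singleton, Finset.card_singleton] at h3
    unfold Set.finrank at h3
    omega
  obtain ⟨i, hiT, hi⟩ := hex
  obtain ⟨y, a, ha0, ha, hVi⟩ := hgen ι (LV (D + 1)) V hV.vert v T hT' hv i hiT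
  have hak : ∃ k, a k ≠ 0 := by
    by_contra hcon
    push Not at hcon
    apply hi
    rw [hVi]
    simp only [hcon, zero_smul, Finset.sum_const_zero, add_zero]
    exact Submodule.smul_mem _ _ (Submodule.mem_span_singleton_self _)
  obtain ⟨k, hk⟩ := hak
  obtain ⟨hkT, hkv, hvk⟩ := ha k hk
  have hthird : ∃ k' ∈ T, k' ≠ v ∧ k' ≠ k := by
    by_contra hcon
    push Not at hcon
    have hle : Submodule.span ℝ (V '' T) ≤
        Submodule.span ℝ ((({V v, V k} : Finset (LV (D + 1))) : Set (LV (D + 1)))) := by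
      apply Submodule.span_mono
      rintro _ ⟨j, hj, rfl⟩
      by_cases hjv : j = v
      · subst hjv; simp
      · have := hcon j hj hjv
        subst this; simp
    have h2 := Submodule.finrank_mono hle
    have h3 := finrank_span_finset_le_card (R := ℝ) ({V v, V k} : Finset (LV (D + 1)))
    have h4 : ({V v, V k} : Finset (LV (D + 1))).card ≤ 2 := Finset.card_le_two
    unfold Set.finrank at h3
    omega
  obtain ⟨k', hk'T, hk'v, hk'k⟩ := hthird
  have hneg : B (V k') (V v + V k) < 0 :=
    h7 (D + 1) ι V hV v k k' (Ne.symm hkv) hvk hk'v hk'k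
  have hu0 : B (V v + V k) (V v + V k) = 0 := by
    rw [B_add_left, B_add_right, B_add_right, hV.norm, hV.norm, B_comm (V k) (V v),
      hV.edge v k (Ne.symm hkv) hvk]
    norm_num
  have hun : ∀ x ∈ T, B (V x) n0 = 0 := fun x hx => by rw [hn0]; exact (hlT x).mp hx
  -- the normal is spacelike
  have hpos : 0 < B n0 n0 := by
    set β := B (V k') (V v + V k) with hβ
    refine spacelike (x := V k' + (-(1 / β)) • (V v + V k)) ?_ ?_ hn0ne
    · rw [B_add_left, B_add_right, B_add_right, B_smul_left, B_smul_left, B_smul_right,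
        B_smul_right, hu0, hV.norm, B_comm (V v + V k) (V k'), ← hβ]
      have : β ≠ 0 := hneg.ne
      have e : 1 + -(1 / β) * β + (-(1 / β) * β + -(1 / β) * (-(1 / β) * 0)) = -1 := by
        field_simp; ring
      rw [e]; norm_num
    · rw [B_add_left, B_smul_left, B_add_left, hun k' hk'T, hun v hv, hun k hkT]
      ring
  -- normalise
  set c := Real.sqrt (B n0 n0) with hc
  have hcpos : 0 < c := Real.sqrt_pos.mpr hpos
  have hcc : c * c = B n0 n0 := Real.mul_self_sqrt hpos.le
  set m : LV (D + 1) := (1 / c) • n0 with hm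
  have hmm : B m m = 1 := by
    rw [hm, B_smul_left, B_smul_right, ← hcc]
    field_simp
  have hVm : ∀ x ∈ T, B (V x) m = 0 := fun x hx => by
    rw [hm, B_smul_right, hun x hx, mul_zero]
  have hmker : ∀ x, B x m = 0 → x ∈ Submodule.span ℝ (V '' T) := by
    intro x hx
    rw [hker]
    show l x = 0
    rw [hm, B_smul_right, hn0] at hx
    rcases mul_eq_zero.mp hx with h | h
    · exact absurd h (by positivity)
    · exact h
  obtain ⟨p, hps, hpk, hpB⟩ := hP D m hmm
  have hpm : p m = 0 := by
    have : m ∈ LinearMap.ker p := by rw [hpk]; exact Submodule.mem_span_singleton_self _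
    exact this
  obtain ⟨σ0, hσ0⟩ := p.exists_rightInverse_of_surjective (LinearMap.range_eq_top.mpr hps)
  have hσ0' : ∀ y, p (σ0 y) = y := fun y => by
    have := congrArg (fun f => f y) hσ0
    simpa using this
  -- the section with values in the hyperplane
  let Bm : LV (D + 1) →ₗ[ℝ] ℝ :=
    { toFun := fun x => B x m
      map_add' := fun x y => B_add_left x y m
      map_smul' := fun a x => by
        rw [B_smul_left]; simp }
  let σ : LV D →ₗ[ℝ] LV (D + 1) := σ0 - (Bm.comp σ0).smulRight m
  have hσv : ∀ y, σ y = σ0 y - B (σ0 y) m • m := fun y => rfl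
  have hpσ : ∀ y, p (σ y) = y := fun y => by
    rw [hσv, map_sub, map_smul, hpm, smul_zero, sub_zero, hσ0']
  have hσm : ∀ y, B (σ y) m = 0 := fun y => by
    rw [hσv, sub_eq_add_neg, ← neg_smul, B_add_left, B_smul_left, hmm]
    ring
  have hσp : ∀ x, B x m = 0 → σ (p x) = x := by
    intro x hx
    have h2 : σ (p x) - x ∈ LinearMap.ker p := by
      show p (σ (p x) - x) = 0
      rw [map_sub, hpσ, sub_self]
    rw [hpk, Submodule.mem_span_singleton] at h2
    obtain ⟨b, hb⟩ := h2
    have h3 : B (b • m) m = 0 := by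
      rw [hb, sub_eq_add_neg, B_add_left, hσm]
      have : -x = (-1 : ℝ) • x := by simp
      rw [this, B_smul_left, hx]
      ring
    rw [B_smul_left, hmm, mul_one] at h3
    rw [h3, zero_smul] at hb
    exact (sub_eq_zero.mp hb.symm)
  have hσV : ∀ x ∈ T, σ (p (V x)) = V x := fun x hx => hσp _ (hVm x hx)
  have hBU : ∀ i j : T, B (p (V i)) (p (V j)) = B (V i) (V j) := by
    intro i j
    rw [hpB, hVm i i.2, zero_mul, sub_zero]
  have hFace : ∀ R : Set T, Face (fun i : T => p (V i)) R ↔
      Face V ((fun i : T => (i : ι)) '' R) := by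
    intro R
    constructor
    · rintro ⟨f, hf0, hfR⟩
      refine h1 ι (LV (D + 1)) V T _ hT' ?_ ⟨f.comp p, fun i hi => hf0 ⟨i, hi⟩, fun i hi => ?_⟩
      · rintro _ ⟨i, _, rfl⟩
        exact i.2
      · constructor
        · rintro ⟨j, hj, hji⟩
          have hj2 : j = ⟨i, hi⟩ := Subtype.ext hji
          subst hj2
          exact (hfR _).mp hj
        · intro h2
          exact ⟨⟨i, hi⟩, (hfR ⟨i, hi⟩).mpr h2, rfl⟩
    · rintro ⟨f, hf0, hfR⟩
      refine ⟨f.comp σ, fun i => ?_, fun i => ?_⟩
      · show 0 ≤ f (σ (p (V i)))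
        rw [hσV i i.2]
        exact hf0 i
      · show i ∈ R ↔ f (σ (p (V i))) = 0
        rw [hσV i i.2, ← hfR i]
        constructor
        · intro h2; exact ⟨i, h2, rfl⟩
        · rintro ⟨j, hj, hji⟩
          have hj2 : j = i := Subtype.ext hji
          rw [← hj2]; exact hj
  refine ⟨fun i => p (V i), ⟨fun i => ?_, ⟨p w, ?_, fun i => ?_⟩, fun i => ?_, fun i j hij hF => ?_,
    ?_⟩, hBU, hFace⟩
  · show B (p (V i)) (p (V i)) = 1
    rw [hBU, hV.norm]
  · rw [hpB]
    nlinarith [sq_nonneg (B w m)]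
  · show B (p (V i)) (p w) < 0
    rw [hpB, hVm i i.2, zero_mul, sub_zero]
    exact hVw i
  · rw [hFace]
    have : (fun i : T => (i : ι)) '' {i} = {(i : ι)} := by simp
    rw [this]
    exact hV.vert i
  · show B (p (V i)) (p (V j)) = -1
    rw [hBU]
    rw [hFace] at hF
    have : (fun i : T => (i : ι)) '' {i, j} = {(i : ι), (j : ι)} := by
      simp [Set.image_pair]
    rw [this] at hF
    exact hV.edge i j (fun h => hij (Subtype.ext h)) hF
  · rw [eq_top_iff]
    intro y _
    have h2 := hmker _ (hσm y)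
    have h3 : p (σ y) ∈ (Submodule.span ℝ (V '' T)).map p := Submodule.mem_map_of_mem h2
    rw [hpσ, Submodule.map_span] at h3
    refine Submodule.span_mono ?_ h3
    rintro _ ⟨_, ⟨j, hj, rfl⟩, rfl⟩
    exact ⟨⟨j, hj⟩, rfl⟩

theorem t : TaskN14 := by
  intro h1 h2 h3 h7 hgen hp7 hP D hD hM ι _ V V' hV hV' hFF S hS hSu i hi j hj
  classical
  have hun : Face V Set.univ := ⟨0, fun _ => le_refl _, fun i => by simp⟩
  have hem : Face V ∅ := by
    obtain ⟨w, -, hw⟩ := hV.tw
    let f : LV (D + 1) →ₗ[ℝ] ℝ :=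
      { toFun := fun x => - B x w
        map_add' := fun x y => by rw [B_add_left]; ring
        map_smul' := fun a x => by rw [B_smul_left]; simp }
    refine ⟨f, fun k => ?_, fun k => ?_⟩
    · show 0 ≤ - B (V k) w
      linarith [hw k]
    · simp only [Set.mem_empty_iff_false, false_iff]
      show ¬ (- B (V k) w = 0)
      have := hw k
      intro h
      linarith
  obtain ⟨-, T, hST, hTF, -, hTss, hTrk⟩ := h3 ι (LV (D + 1)) V S Set.univ hS hun
    (Set.ssubset_univ_iff.mpr hSu)
  have hTu : T ≠ Set.univ := Set.ssubset_univ_iff.mp hTss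
  have hrk : rk V T = D + 1 := by
    unfold rk at hTrk ⊢
    rw [Set.image_univ, hV.span, finrank_top] at hTrk
    have hfin : Module.finrank ℝ (LV (D + 1)) = D + 2 := by simp
    rw [hfin] at hTrk
    omega
  have hrk' : rk V' T = D + 1 := by
    rw [← h7 ι (LV (D + 1)) (LV (D + 1)) V V' hFF hem T hTF]
    exact hrk
  have : Fintype T := Fintype.ofFinite T
  obtain ⟨U, hU, hUB, hUF⟩ := facet h1 hgen hp7 hP D hD ι V hV T hTF hTu hrk
  obtain ⟨U', hU', hUB', hUF'⟩ := facet h1 hgen hp7 hP D hD ι V' hV' T ((hFF T).mp hTF) hTu hrk'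
  obtain ⟨A, hA, hAU⟩ := hM T U U' hU hU' (fun R => by rw [hUF, hUF', hFF])
  have e1 := hUB ⟨i, hST hi⟩ ⟨j, hST hj⟩
  have e2 := hUB' ⟨i, hST hi⟩ ⟨j, hST hj⟩
  rw [← e1, ← e2, ← hAU, ← hAU, hA]

end Pool.Agent.H780R3.ES.N14
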